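import Pool.Agent.H64.LS.Final

set_option autoImplicit false

/-!
# The Lefschetz standard conjecture for threefolds which are not of general type
-/

namespace Pool.Agent.Results.MP_fd35e1_ag.LefschetzThreefolds

open Pool.Agent.H64.CC (Weil)
open Pool.Agent.H64.LS

/-- Let `F n` be the algebraic closure of the field of rational functions in `n` variables over the
prime field of characteristic `p`. Let `W` and `W'` be two Weil cohomologies for the smooth
projective connected varieties over the fields `F n`, the `ℓ`-adic and the crystalline cohomology
(`Cohomology`), with the fibrations over curves (`Fibrations`), the theorem of Katz and Messing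
(`Comparison`), and the classification of curves and surfaces (`Geometry`).

1. The Lefschetz standard conjecture `B(X)` holds for the members `X` of `ClassB`, for the `ℓ`-adic
and for the crystalline cohomology. So all Künneth projectors of `X` are algebraic, and the conjecture
`C⁺(X)` holds. This is the smallest class which contains the varieties of dimension at most `2`, the
abelian varieties and the threefolds in `Class2`, and which is closed under products, under the images
by generically finite morphisms, and under smooth complete intersections of ample divisors, over any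
field `F m`.

2. The inverse of `L ^ (d - 2)` from `H^(2d - 2)(X)` to `H²(X)`, where `d = dim X`, and the projector
onto `H²(X)` are algebraic, for the members `X` of `Class2`. This class contains every variety `X`
with a fibration over a curve, with geometric generic fibre `Y`, such that the classes in `H²(Y)`
which are fixed by the monodromy group are combinations of classes of divisors. It is closed under
products, under the images by generically finite morphisms, and under smooth complete intersections of
dimension at least `3`.

3. A threefold `X` is in `ClassB` if one of the following holds for `X`, or for a threefold `X'` with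
a surjective morphism to `X`.
* `X'` is covered by curves of geometric genus at most `1`; for example `X'` is uniruled.
* `X'` has a dominant rational map to a curve whose fibres are surfaces which are not of general type.
* `X'` is of Kodaira dimension `1` or `2`.
* `p > 5` and `X'` is not of general type, unless `X'` is of Kodaira dimension `0`, `H¹(X') = 0` and
  `H²(X')` is not generated by the classes of divisors.
* `X'` has a fibration over a curve, with geometric generic fibre `Y`, the Tate conjecture for divisors
  is known for `Y`, and either there is a place of Tate type, or the monodromy group acts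
  non-trivially on the transcendental part of the crystalline cohomology `H²(Y)` and the part of
  slope less than `1` of `H²(Y)` is simple. -/
theorem result {K K' : Type} [Field K] [CharZero K] [Field K'] [CharZero K'] (W : Weil K)
    (h : Cohomology W) (𝓕 : Fibrations W)
    (h𝓕 : ∀ {n : ℕ} {X : W.Var n} {Y : W.Var (n + 1)} (f : 𝓕.Fib X Y), 𝓕.Theory f)
    (W' : Weil K') (h' : Cohomology W') (𝓕' : Fibrations W')
    (h𝓕' : ∀ {n : ℕ} {X : W'.Var n} {Y : W'.Var (n + 1)} (f : 𝓕'.Fib X Y), 𝓕'.Theory f)
    (Φ : Comparison W W') (T : Geometry W 𝓕 W' 𝓕' Φ) (hI : T.Iitaka) (n : ℕ) (X : W.Var n) :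
    (ClassB T X → (W.B X ∧ W.C X ∧ W.Cplus X) ∧
      W'.B (Φ.var X) ∧ W'.C (Φ.var X) ∧ W'.Cplus (Φ.var X)) ∧
    (Class2 T X → 2 ≤ W.dim X → (W.BDeg X 2 ∧ W.pj X 2 ∈ W.cyc X X 0) ∧
      W'.BDeg (Φ.var X) 2 ∧ W'.pj (Φ.var X) 2 ∈ W'.cyc (Φ.var X) (Φ.var X) 0) ∧
    ∀ X' : W.Var n, W.dim X' = 3 → X' = X ∨ Nonempty (Dominates W X' X) →
      (T.LowGenus X' ∨ T.Special X' ∨ T.kod X' = 1 ∨ T.kod X' = 2 ∨
        (T.MinimalModels ∧ T.kod X' < 3 ∧
          ¬ (T.kod X' = 0 ∧ Vanishes W X' 1 ∧ ¬ AllDivisors W X')) ∨
        TateType 𝓕 X' ∨ Slope 𝓕' (Φ.var X')) → ClassB T X := by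
  refine ⟨fun hX => all_of_class h h' h𝓕 h𝓕' hX, fun hX h2 => two_of_class h h' h𝓕 h𝓕' hX h2,
    fun X' hX' hd hc => ?_⟩
  have h0 : Class2 T X' := by
    obtain ⟨h1, h2, h3, h4, h5, h6⟩ := class2_threefold (T := T) h𝓕 hX'
    rcases hc with hc | hc | hc | hc | ⟨hM, hk, h0⟩ | hc | hc
    · exact h1 hc
    · exact h2 hc
    · exact h3 hI (Or.inl hc)
    · exact h3 hI (Or.inr hc)
    · exact h4 hI hM hk h0
    · exact h6 hc
    · exact h5 hc
  rcases hd with rfl | ⟨⟨q⟩⟩
  · exact ClassB.three _ hX' h0
  · have h1 := q.dim_eq
    exact ClassB.three X (by omega) (Class2.dom X' X q h0)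

end Pool.Agent.Results.MP_fd35e1_ag.LefschetzThreefolds
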