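import Pool.Agent.H64.EV.Final

set_option autoImplicit false

/-!
# Nilpotence of numerically trivial correspondences and the standard conjectures in characteristic p
-/

namespace Pool.Agent.Results.MP_fd35e1_ag.NilpotenceLefschetz

open Pool.Agent.H64.CC Pool.Agent.H64.NLW Pool.Agent.H64.EV Matrix

/-- Let `W` be a Weil cohomology for the smooth projective connected varieties over the fields
`F 0 ⊂ F 1 ⊂ …`, where `F n` is the algebraic closure of the field of rational functions in `n`
variables over the prime field of characteristic `p`, in which the Künneth projectors of the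
varieties over `F 0` are algebraic (Katz and Messing).

(a) Let `V` be a variety over `F 0`, let `L` be ample on `V`, and let `T` be a generic complete
intersection, of any dimension, of `r` members of the linear systems of large multiples of `L`. The
following are equivalent: the sign conjecture `C⁺(T)`; for all `n` the even Künneth projector of
`T ^ n` is numerically equivalent to the class of a cycle; for all `n` the numerically trivial
correspondences from `T ^ n` to `T ^ n` are nilpotent modulo homological equivalence; for `n` at
most `dim H(T) + 1`, and `2n` at most `dim H(T) + 2` if `dim T` is odd, there are no phantoms in the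
motive of `T ^ n`. By the transposition of the correspondences of `V` these are equivalent, for
`r ≥ 1`, to the following: for the `j < dim T` which do not have the parity of `dim T` the map
`L ^ r : Hʲ(V) → H^(j + 2r)(V)` has an algebraic left inverse; for these `j` it is not numerically
trivial on any algebraic idempotent `e ≠ 0` of `Hʲ(V)`.

(b) Let `Z` be a variety over `F 0` and `i < dim Z`. If there are no phantoms in the motives of the
powers `T ^ n`, `2n ≤ dim H(T) + 2`, of one generic complete intersection `T`, of dimension
`2i + 1`, of members of the linear systems of multiples of `L ⊗ 1 + 1 ⊗ L` on `Z × Z`, for some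
ample `L`, then `Bᵢ(Z)` holds.

(c) Suppose that generic complete intersections of odd dimension exist, for all varieties over
`F 0`. Then the following are equivalent, for one variety `Z` over `F 0`: the Lefschetz standard
conjecture `B(Z)`; the Künneth conjecture `C(T)` for all smooth complete intersections `T` in
`Z × Z`; for all generic complete intersections `T` in `Z × Z` and all `n` the even Künneth
projector of `T ^ n` is numerically equivalent to the class of a cycle; for all these `T` and `n`
the numerically trivial correspondences from `T ^ n` to `T ^ n` are nilpotent; the condition of (b)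
holds for all `i < dim Z`.

(d) Suppose that generic complete intersections of all positive dimensions exist, for all varieties
over `F 0`. Then the following are equivalent, for one variety `V` over `F 0` and one ample `L`: the
Künneth conjecture `C(T)` for all generic complete intersections `T` of members of the linear
systems of multiples of `L`; for all these `T` (of large multiples) and all `n` the numerically
trivial correspondences from `T ^ n` to `T ^ n` are nilpotent; for `1 ≤ r < dim V` there is such a
`T`, of `r` members, without phantoms in the motives of the powers `T ^ n`, for the `n` of (a); for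
`j + 1 < dim V` the map `L ^ (dim V - 1 - j)` on `Hʲ(V)` has an algebraic left inverse; for these
`j` it is not numerically trivial on any algebraic idempotent `e ≠ 0` of `Hʲ(V)`.

(e) Suppose that generic complete intersections of odd dimension exist, and that every variety over
`F (n + 1)` is the geometric generic fibre of a family over a curve over `F n`, with the properties
of `Models`. The following are equivalent: `C⁺(X)` for all `X` over all `F n`; for all `X` the
Künneth projectors are numerically equivalent to classes of cycles; for all `X` the even Künneth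
projector is numerically equivalent to the class of a cycle; for all `X` the numerically trivial
correspondences from `X` to `X` are nilpotent; there are no phantoms; `B(Z)` for all `Z` over `F 0`;
`C(X)` and `B(X)` for all `X`. -/
theorem result {K : Type} [Field K] [CharZero K] (W : Weil K) (hW : W.Theory) :
    (∀ (V : W.Var 0) (L : W.Hom V V), L ∈ W.Lef V → ∀ (r m : ℕ) (T : W.Var m)
      (S : W.Deligne V L r T),
      List.TFAE [
        W.Cplus T,
        ∀ n : ℕ, W.NumCplus (S.powers.pow n),
        ∀ n : ℕ, W.Nilpotence (S.powers.pow n),
        ∀ n ≤ W.rk T + 1, (Odd (W.dim T) → 2 * n ≤ W.rk T + 2) →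
          W.NoPhantom (S.powers.pow n)] ∧
      (Nonempty (W.Transposition V) → 1 ≤ r → List.TFAE [
        W.Cplus T,
        ∀ j < W.dim T, ¬ (Even j ↔ Even (W.dim T)) → W.LeftInverse V L r j,
        ∀ j < W.dim T, ¬ (Even j ↔ Even (W.dim T)) → W.NumInjective V L r j])) ∧
    (∀ (Z : W.Var 0) (i : ℕ), i < W.dim Z →
      (∃ L ∈ W.Lef Z, ∃ (m : ℕ) (T : W.Var m)
        (S : W.Deligne (W.prod Z Z) (W.box L L) (2 * (W.dim Z - i) - 1) T),
        ∀ n : ℕ, 2 * n ≤ W.rk T + 2 → W.NoPhantom (S.powers.pow n)) → W.BDeg Z i) ∧
    (W.DeligneSections Odd → ∀ Z : W.Var 0,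
      List.TFAE [
        W.B Z,
        ∀ (m : ℕ) (T : W.Var m), W.IsIntersection (W.prod Z Z) T → W.C T,
        ∀ L ∈ W.Lef (W.prod Z Z), ∀ (r m : ℕ) (T : W.Var m)
          (S : W.Deligne (W.prod Z Z) L r T) (n : ℕ), 1 ≤ r → W.NumCplus (S.powers.pow n),
        ∀ L ∈ W.Lef (W.prod Z Z), ∀ (r m : ℕ) (T : W.Var m)
          (S : W.Deligne (W.prod Z Z) L r T) (n : ℕ), 1 ≤ r → W.Nilpotence (S.powers.pow n),
        ∀ i < W.dim Z, ∃ L ∈ W.Lef Z, ∃ (m : ℕ) (T : W.Var m)
          (S : W.Deligne (W.prod Z Z) (W.box L L) (2 * (W.dim Z - i) - 1) T),
          ∀ n : ℕ, 2 * n ≤ W.rk T + 2 → W.NoPhantom (S.powers.pow n)]) ∧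
    (W.DeligneSections (fun _ => True) → ∀ V : W.Var 0, Nonempty (W.Transposition V) →
      ∀ L ∈ W.Lef V,
      List.TFAE [
        ∀ (r m : ℕ) (T : W.Var m), 1 ≤ r → Nonempty (W.GenericIntersection V L r T) → W.C T,
        ∀ (r m : ℕ) (T : W.Var m) (S : W.Deligne V L r T) (n : ℕ), 1 ≤ r →
          W.Nilpotence (S.powers.pow n),
        ∀ r, 1 ≤ r → r < W.dim V → ∃ (m : ℕ) (T : W.Var m) (S : W.Deligne V L r T),
          ∀ n ≤ W.rk T + 1, (Odd (W.dim T) → 2 * n ≤ W.rk T + 2) →
            W.NoPhantom (S.powers.pow n),
        ∀ j, j + 1 < W.dim V → W.LeftInverse V L (W.dim V - 1 - j) j,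
        ∀ j, j + 1 < W.dim V → W.NumInjective V L (W.dim V - 1 - j) j]) ∧
    (W.DeligneSections Odd → W.Models →
      List.TFAE [
        ∀ (n : ℕ) (X : W.Var n), W.Cplus X,
        ∀ (n : ℕ) (X : W.Var n), W.NumC X,
        ∀ (n : ℕ) (X : W.Var n), W.NumCplus X,
        ∀ (n : ℕ) (X : W.Var n), W.Nilpotence X,
        ∀ (n : ℕ) (X : W.Var n), W.NoPhantom X,
        ∀ Z : W.Var 0, W.B Z,
        ∀ (n : ℕ) (X : W.Var n), W.C X ∧ W.B X]) :=
  ⟨fun _ _ hL _ _ _ S => ⟨local_both W hW hL S, fun ⟨t⟩ hr => local_crit W hW hL S t hr⟩,
    bdeg_both W hW, b_both W hW, fun hO V ⟨t⟩ _ hL => sections_both W hW hO V t hL,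
    fun hO hM => global_tfae2 r_CPW r_NIL r_LOC W hW (odd_sections W hO) hM⟩

end Pool.Agent.Results.MP_fd35e1_ag.NilpotenceLefschetz
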