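import Pool.Agent.H64.EK.Final
import Pool.Agent.H64.FTM.Uncond
import Pool.Agent.H64.STM.Uncond

set_option autoImplicit false

/-!
# Numerical motives of complete intersections, and the standard conjectures in characteristic p
-/

open Matrix

namespace Pool.Agent.H64.CC.Weil

open Pool.Agent.H64.STM

variable {K : Type} [Field K] [CharZero K] {W : Weil K}

/-- `n!` times the projectors on the super-symmetric powers (`z = 1`), or on the super-exterior powers
(`z = -1`), of `R = (T, ρ)` are algebraic, this one is numerically trivial for `n = b + 1`, and it is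
not numerically trivial for `n ≤ b`: the numerical motive `R` is finite-dimensional in the sense of
Kimura and O'Sullivan, and odd (even) of dimension `b` -/
structure PowerData.KimuraFinite {m : ℕ} {T : W.Var m} (P : W.PowerData T) (z : K) (ρ : W.Hom T T)
    (b : ℕ) : Prop where
  algebraic : ∀ n : ℕ, P.permPow z ρ n ∈ W.cyc (P.pow n) (P.pow n) 0
  trivial : W.NumTrivial (P.pow (b + 1)) (P.permPow z ρ (b + 1))
  not_trivial : ∀ n ≤ b, ¬ W.NumTrivial (P.pow n) (P.permPow z ρ n)

/-- The invariant theory of the numerical motive `R = (T, 1 - ε)`, for `Sp_b` (`dim T` odd), or `O_b`,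
`SO_b` (`dim T` even):

* first fundamental theorem: the correspondences of degree 0 on the powers `T ^ k` are numerically
  equivalent to tautological ones;
* second fundamental theorem: a linear combination of diagrams of `R`, that is, of the classes on
  `T ^ (2k)` which are obtained by permutations of the factors from the `k`-th power of the class of
  the diagonal of `R`, is numerically trivial if and only if the same combination of the tensors in
  `(ℚ ^ b) ^ (⊗ 2k)` is zero, which are obtained from the standard form of the symplectic group
  (`dim T` odd; then `ℚ ^ b` is purely odd) or of the orthogonal group (`dim T` even) -/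
structure PowerData.Invariants {m : ℕ} {T : W.Var m} (P : W.PowerData T) (ε : W.Hom T T)
    (b : ℕ) : Prop where
  first : ∀ (k : ℕ), ∀ f ∈ W.cyc (P.pow k) (P.pow k) 0, ∃ g ∈ P.Taut ε b k,
    W.NumTrivial (P.pow k) (f - g)
  second : ∀ (k : ℕ) (c : List (ℚ × List ℕ)), (∀ x ∈ c, ∀ j ∈ x.2, j + 2 ≤ 2 * k) →
    (W.NumTrivial (P.pow k) (P.oper k (comb (W.par T) ((1 - ε) * P.form⁻¹) k c)) ↔
    ∀ w : List (Fin b), w.length = 2 * k →
      comb (fun _ => decide (Odd (W.dim T))) (stdOm (decide (Odd (W.dim T))) b) k c w = 0)

/-- The numerical motive `R = (T, 1 - ε)` is finite-dimensional in the sense of Kimura and O'Sullivan,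
odd of dimension `b`, if `dim T` is odd (then `b` is even), and even of dimension `b`, if `dim T` is
even; its invariant theory is that of the symplectic or orthogonal group; and the Künneth components
of `(T, ε)` are algebraic -/
structure Deligne.Finite {m : ℕ} {V : W.Var 0} {L : W.Hom V V} {r : ℕ} {T : W.Var m}
    (S : W.Deligne V L r T) (ε : W.Hom T T) (b : ℕ) : Prop where
  finite : S.powers.KimuraFinite (-(-1) ^ W.dim T) (1 - ε) b
  even : Odd (W.dim T) → Even b
  invariants : S.powers.Invariants ε b
  kunneth : ∀ i : ℕ, W.comp ε (W.pj T i) ∈ W.cyc T T 0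

/-- the class `P n = S.power (1 - ε) n` is zero (modulo homological equivalence) -/
def Deligne.Vanish {m : ℕ} {V : W.Var 0} {L : W.Hom V V} {r : ℕ} {T : W.Var m}
    (S : W.Deligne V L r T) (ε : W.Hom T T) (n : ℕ) : Prop := S.power (1 - ε) n = 0

/-- the numerically trivial classes `P (b + 1)` are zero, for all the maximal direct factors `(T, ε)`
of the motive of `T` which come from `V` -/
def Deligne.Zero {m : ℕ} {V : W.Var 0} {L : W.Hom V V} {r : ℕ} {T : W.Var m}
    (S : W.Deligne V L r T) : Prop :=
  ∀ (ε : W.Hom T T) (b : ℕ), Remainder S ε b → S.Vanish ε (b + 1)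

/-- this holds for one generic complete intersection of dimension `2i + 1` in `Z × Z`, of members of
the linear systems of multiples of `L ⊗ 1 + 1 ⊗ L`, for some ample `L` -/
def OneZero (W : Weil K) (Z : W.Var 0) (i : ℕ) : Prop :=
  ∃ L ∈ W.Lef Z, ∃ (m : ℕ) (T : W.Var m)
    (S : W.Deligne (W.prod Z Z) (W.box L L) (2 * (W.dim Z - i) - 1) T), S.Zero

end Pool.Agent.H64.CC.Weil

namespace Pool.Agent.Results.MP_fd35e1_ag.NumericalMotives

open Pool.Agent.H64.CC Pool.Agent.H64.EV Pool.Agent.H64.EK

/-- Let `W` be a Weil cohomology for the smooth projective connected varieties over the fields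
`F 0 ⊂ F 1 ⊂ …`, where `F n` is the algebraic closure of the field of rational functions in `n`
variables over the prime field of characteristic `p`, in which the Künneth projectors of the
varieties over `F 0` are algebraic (Katz and Messing).

(a) Let `V` be a variety over `F 0`, let `L` be ample on `V`, and let `T` be a generic complete
intersection, of any dimension, of members of the linear systems of large multiples of `L`. The
Künneth projectors of `T` are numerically equivalent to classes of cycles. There is a maximal direct
factor `(T, ε)` of the motive of `T` which comes from `V`; its Künneth components are algebraic.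
For all these `ε` let `R = (T, 1 - ε)` be the rest of the motive, let `b` be the absolute value of
its Euler characteristic, which has the sign `(-1) ^ (dim T)`, and let `P n` be the super-symmetric
power `Sym ^ n R`, if `dim T` is odd, and the super-exterior power `⋀ ^ n R`, if `dim T` is even,
given by a multiple of a projector. If `dim T` is odd, then `b` is even. `P n` is algebraic. It is
zero modulo numerical equivalence for `n = b + 1`, but not for `n ≤ b`: so the numerical motive of
`T` is finite-dimensional in the sense of Kimura and O'Sullivan. Every correspondence of degree 0 on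
a power `T ^ k` is numerically equivalent to a tautological one, a linear combination of those whose
classes on `T ^ (2k)` are obtained by permutations of the factors from the products of the classes of
the diagonal of `R` and of one class which comes from `V` in all factors, or, if `dim T` is even,
which is alternating and in `R` in `b` factors, and comes from `V` in the others. A linear
combination of products of diagonals of `R` is numerically trivial if and only if it is zero in the
standard representation of `Sp_b` (`dim T` odd) or `O_b` (`dim T` even): these are the two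
fundamental theorems of invariant theory, for the numerical motive of `T`. The following are
equivalent: the
sign conjecture `C⁺(T)`; the rank of `H(R)` is `b`; `P (b + 1)` is zero (modulo homological
equivalence); `P n` is zero for some `n`, that is, `R` is finite-dimensional modulo homological
equivalence; the even Künneth projector of `T ^ (b + 1)` is numerically equivalent to the class of a
cycle; the numerically trivial correspondences from `T ^ (b + 1)` to `T ^ (b + 1)` are nilpotent;
there are no phantoms in the motive of `T ^ (b + 1)`.

(b) Let `Z` be a variety over `F 0` and `i < dim Z`. If `P (b + 1) = 0` (for all `ε`) for one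
generic complete intersection `T`, of dimension `2i + 1`, of members of the linear systems of multiples of
`L ⊗ 1 + 1 ⊗ L` on `Z × Z`, for some ample `L`, then `Bᵢ(Z)` holds.

(c) Suppose that generic complete intersections of odd dimension exist, for all varieties over
`F 0`. Then the following are equivalent, for one variety `Z` over `F 0`: `B(Z)`; for all generic
complete intersections `T` in `Z × Z` the numerically trivial algebraic class `P (b + 1)` is zero;
the condition of (b) holds for all `i < dim Z`.

(d) Suppose that generic complete intersections of all positive dimensions exist, for all varieties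
over `F 0`. Then the following are equivalent, for one variety `V` over `F 0` and one ample `L`: the
Künneth conjecture `C(T)` for all generic complete intersections `T` of members of the linear
systems of multiples of `L`; `P (b + 1) = 0` for all these `T` (of large multiples); `P (b + 1) = 0`
for one such `T`, of `r` members, for each `r` with `1 ≤ r < dim V`.

(e) Suppose that generic complete intersections of odd dimension exist, and that every variety over
`F (n + 1)` is the geometric generic fibre of a family over a curve over `F n`, with the properties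
of `Models`. The conjectures `C(X)` and `B(X)`, for all `X` over all `F n`, are equivalent to
`P (b + 1) = 0` for all generic complete intersections `T` in varieties over `F 0`. -/
theorem result {K : Type} [Field K] [CharZero K] (W : Weil K) (hW : W.Theory) :
    (∀ (V : W.Var 0) (L : W.Hom V V), L ∈ W.Lef V → ∀ (r m : ℕ) (T : W.Var m)
      (S : W.Deligne V L r T),
      W.NumC T ∧ (∃ (ε : W.Hom T T) (b : ℕ), Weil.Remainder S ε b) ∧
      ∀ (ε : W.Hom T T) (b : ℕ), Weil.Remainder S ε b → S.Finite ε b ∧
        List.TFAE [
          W.Cplus T,
          (1 - ε).rank = b,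
          S.Vanish ε (b + 1),
          ∃ n : ℕ, S.Vanish ε n,
          W.NumCplus (S.powers.pow (b + 1)),
          W.Nilpotence (S.powers.pow (b + 1)),
          W.NoPhantom (S.powers.pow (b + 1))]) ∧
    (∀ (Z : W.Var 0) (i : ℕ), i < W.dim Z → W.OneZero Z i → W.BDeg Z i) ∧
    (W.DeligneSections Odd → ∀ Z : W.Var 0,
      List.TFAE [
        W.B Z,
        ∀ L ∈ W.Lef (W.prod Z Z), ∀ (r m : ℕ) (T : W.Var m) (S : W.Deligne (W.prod Z Z) L r T),
          1 ≤ r → S.Zero,
        ∀ i < W.dim Z, W.OneZero Z i]) ∧
    (W.DeligneSections (fun _ => True) → ∀ V : W.Var 0, Nonempty (W.Transposition V) →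
      ∀ L ∈ W.Lef V,
      List.TFAE [
        ∀ (r m : ℕ) (T : W.Var m), 1 ≤ r → Nonempty (W.GenericIntersection V L r T) → W.C T,
        ∀ (r m : ℕ) (T : W.Var m) (S : W.Deligne V L r T), 1 ≤ r → S.Zero,
        ∀ r, 1 ≤ r → r < W.dim V → ∃ (m : ℕ) (T : W.Var m) (S : W.Deligne V L r T), S.Zero]) ∧
    (W.DeligneSections Odd → W.Models →
      ((∀ (n : ℕ) (X : W.Var n), W.C X ∧ W.B X) ↔
        ∀ (V : W.Var 0) (L : W.Hom V V), L ∈ W.Lef V → ∀ (r m : ℕ) (T : W.Var m)
          (S : W.Deligne V L r T), S.Zero)) := by
  have hZ : ∀ (V : W.Var 0) (L : W.Hom V V), L ∈ W.Lef V → ∀ (r m : ℕ) (T : W.Var m)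
      (S : W.Deligne V L r T), S.Zero ↔
      ∃ (ε : W.Hom T T) (b : ℕ), Weil.Remainder S ε b ∧ S.power (1 - ε) (b + 1) = 0 := by
    intro V L hL r m T S
    constructor
    · intro h
      obtain ⟨ε, b, R⟩ := remainder_exists W hW hL S
      exact ⟨ε, b, R, h ε b R⟩
    · rintro ⟨ε, b, R, h⟩ ε' b' R'
      have h1 : W.Cplus T := ((core_tfae W hW hL S R).out 2 0).1 h
      exact ((core_tfae W hW hL S R').out 0 2).1 h1
  refine ⟨fun _ _ hL _ _ _ S => ⟨numC_deligne W hW hL S, remainder_exists W hW hL S,
      fun _ _ R => ⟨⟨⟨(main_of W hW hL S R).2.1, (main_of W hW hL S R).2.2.1,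
        (main_of W hW hL S R).2.2.2⟩, (main_of W hW hL S R).1,
        ⟨fun k _ hf => Pool.Agent.H64.FTM.taut W hW hL S R k hf,
          fun k c hc => Pool.Agent.H64.STM.relations W hW hL S R k c hc⟩, comp_pj_mem W hW S R⟩,
        core_tfae W hW hL S R⟩⟩, ?_, ?_, ?_, ?_⟩
  · rintro Z i hi ⟨L, hL, m, T, S, h⟩
    obtain ⟨ε, b, R, h1⟩ := (hZ _ _ (hW.lefschetz.box_mem Z Z L hL L hL) _ m T S).1 h
    exact bdeg_of_zero W hW Z i hi ⟨L, hL, m, T, S, ε, b, R, h1⟩
  · intro hO Z
    have h0 := b_tfae3 W hW hO Z
    tfae_have 1 → 2 := fun h L hL r m T S hr ε b R => (h0.out 0 1 rfl rfl).1 h L hL r m T S ε b hr R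
    tfae_have 2 → 3 := by
      intro h i hi
      obtain ⟨L, hL, m, T, S, -⟩ := (h0.out 1 2 rfl rfl).1
        (fun L hL r m T S ε b hr R => h L hL r m T S hr ε b R) i hi
      have hLL := hW.lefschetz.box_mem Z Z L hL L hL
      exact ⟨L, hL, m, T, S, h _ hLL _ m T S (by omega)⟩
    tfae_have 3 → 1 := by
      intro h
      refine (h0.out 2 0).1 fun i hi => ?_
      obtain ⟨L, hL, m, T, S, h1⟩ := h i hi
      obtain ⟨ε, b, R, h2⟩ := (hZ _ _ (hW.lefschetz.box_mem Z Z L hL L hL) _ m T S).1 h1
      exact ⟨L, hL, m, T, S, ε, b, R, h2⟩
    tfae_finish
  · rintro hO V ⟨t⟩ L hL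
    have h0 := sections_zero W hW hO V t hL
    tfae_have 1 → 2 := fun h r m T S hr ε b R => (h0.out 0 1 rfl rfl).1 h r m T S ε b hr R
    tfae_have 2 → 3 := by
      intro h r hr hr2
      obtain ⟨m, T, S, -⟩ := (h0.out 1 2 rfl rfl).1 (fun r m T S ε b hr R => h r m T S hr ε b R) r hr hr2
      exact ⟨m, T, S, h r m T S hr⟩
    tfae_have 3 → 1 := by
      intro h
      refine (h0.out 2 0).1 fun r hr hr2 => ?_
      obtain ⟨m, T, S, h1⟩ := h r hr hr2
      obtain ⟨ε, b, R, h2⟩ := (hZ V L hL r m T S).1 h1
      exact ⟨m, T, S, ε, b, R, h2⟩
    tfae_finish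
  · intro hO hM
    exact global_iff W hW hO hM

end Pool.Agent.Results.MP_fd35e1_ag.NumericalMotives
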