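import Pool.Agent.H64.CC.Bridge

set_option autoImplicit false

/-!
# The sign conjecture and the Lefschetz standard conjecture in characteristic p
-/

namespace Pool.Agent.Results.MP_fd35e1_ag.SignLefschetz

open Pool.Agent.H64.CC Matrix

/-- Let `W` be a Weil cohomology for the smooth projective connected varieties over the fields
`F 0 ⊂ F 1 ⊂ …`, where `F n` is the algebraic closure of the field of rational functions in `n`
variables over the prime field of characteristic `p`, in which the Künneth projectors of the
varieties over `F 0` are algebraic (Katz and Messing).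

(a) Let `Z` be a variety over `F 0` of dimension `d`, and let `i < d`. If the sign conjecture
`C⁺(T)` holds for one generic complete intersection `T` of dimension `2i + 1` in `Z × Z`
(`SignSquare`), then the Lefschetz standard conjecture `Bᵢ(Z)` in degree `i` holds; and `Bᵢ(Z)` is
equivalent to its numerical form (`Nontriv`).

(b) Suppose that generic complete intersections exist (`Sections`). Then for each variety `Z` over
`F 0` the following are equivalent: `B(Z)`; the Künneth conjecture `C(T)` for all smooth complete
intersections `T` in `Z × Z`; the sign conjecture `C⁺(T)` for all generic complete intersections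
`T` in `Z × Z`; `SignSquare` in all degrees less than `dim Z`; `Nontriv` in all these degrees.

(c) If `C⁺(T)` holds for all varieties `T` of dimension `2i + 1`, then `Bᵢ(Z)` holds for the
varieties `Z` over `F 0`, of any dimension.

(d) If moreover the varieties over `F (n + 1)` have models over curves over `F n` (`Models`) and
`C⁺(T)` holds for all varieties `T` of odd dimension at most `2 ^ (n + 1) (d + 1) - 3`, then the
Künneth conjecture `C(X)` and the Lefschetz conjecture `B(X)` hold for all varieties `X` over `F n`
of dimension `d`.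

(e) Under the same hypotheses the following are equivalent: `C⁺(X)` for all `X`; `B(Z)` for all `Z`
over `F 0`; `C(X)` and `B(X)` for all `X`. -/
theorem result {K : Type} [Field K] [CharZero K] (W : Weil K) (hW : W.Theory) :
    (∀ (Z : W.Var 0) (i : ℕ), i < W.dim Z →
      (W.SignSquare Z i → W.BDeg Z i) ∧ (W.BDeg Z i ↔ W.Nontriv Z i)) ∧
    (W.Sections → ∀ Z : W.Var 0, List.TFAE [
      W.B Z,
      ∀ (m : ℕ) (T : W.Var m), W.IsIntersection (W.prod Z Z) T → W.C T,
      ∀ (m : ℕ) (T : W.Var m), W.IsGeneric (W.prod Z Z) T → W.Cplus T,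
      ∀ i < W.dim Z, W.SignSquare Z i,
      ∀ i < W.dim Z, W.Nontriv Z i]) ∧
    (W.Sections → ∀ i : ℕ,
      (∀ (n : ℕ) (T : W.Var n), W.dim T = 2 * i + 1 → W.Cplus T) →
      ∀ Z : W.Var 0, i ≤ W.dim Z → W.BDeg Z i) ∧
    (W.Sections → W.Models → ∀ n d : ℕ,
      (∀ (m : ℕ) (T : W.Var m), Odd (W.dim T) → W.dim T + 3 ≤ 2 ^ (n + 1) * (d + 1) →
        W.Cplus T) →
      ∀ X : W.Var n, W.dim X = d → W.C X ∧ W.B X) ∧
    (W.Sections → W.Models → List.TFAE [
      ∀ (n : ℕ) (X : W.Var n), W.Cplus X,
      ∀ Z : W.Var 0, W.B Z,
      ∀ (n : ℕ) (X : W.Var n), W.C X ∧ W.B X]) :=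
  ⟨point W hW, local' W hW, bounded W hW, graded' W hW, main' W hW⟩

end Pool.Agent.Results.MP_fd35e1_ag.SignLefschetz
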